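import Pool.Agent.H63.SEP.Stmts3

/-!
Project SEP, module GVQ: the values of the Goedel operations.
-/

set_option linter.unusedVariables false
set_option synthInstance.maxSize 100000

namespace SW.SEP

open SW

section
variable {M : Type} [SetStr M] [ZF M]

theorem gvq_triple {t u v w : M} : IsTriple t u v w ↔ t = opair (opair u v) w := by
  constructor
  · rintro ⟨p, h1, h2⟩
    rw [isOP_iff] at h1 h2
    rw [h2, h1]
  · rintro rfl
    exact ⟨opair u v, isOP_iff.2 rfl, isOP_iff.2 rfl⟩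

theorem gvq_tr {T a b : M} (hT : Trans T) (h : E (opair a b) T) : E a T ∧ E b T := by
  have h1 : E (upair a b) T := hT _ h _ (by rw [opair, mem_upair]; exact Or.inr rfl)
  exact ⟨hT _ h1 _ (mem_upair.2 (Or.inl rfl)), hT _ h1 _ (mem_upair.2 (Or.inr rfl))⟩

theorem gvq_tc {x a b : M} (h : E (opair a b) x) : E a (tc x) ∧ E b (tc x) :=
  gvq_tr (Trans_tc x) (sub_tc x _ h)

theorem gvq_tc3 {x a b c : M} (h : E (opair (opair a b) c) x) :
    E a (tc x) ∧ E b (tc x) ∧ E c (tc x) :=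
  ⟨(gvq_tr (Trans_tc x) (gvq_tc h).1).1, (gvq_tr (Trans_tc x) (gvq_tc h).1).2, (gvq_tc h).2⟩

/-- the Goedel operations -/
noncomputable def gop : ℕ → M → M → M
  | 0, x, y => upair x y
  | 1, x, y => prod x y
  | 2, x, y => sep (prod x y) (fun t => ∃ u v, E u v ∧ t = opair u v)
  | 3, x, y => diff x y
  | 4, x, y => inter x y
  | 5, x, _ => sUn x
  | 6, x, _ => sep (tc x) (fun t => ∃ v, E (opair t v) x)
  | 7, x, _ => sep (prod (tc x) (tc x)) (fun t => ∃ u v, E (opair v u) x ∧ t = opair u v)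
  | 8, x, _ => sep (prod (prod (tc x) (tc x)) (tc x))
      (fun t => ∃ u v w, E (opair (opair u w) v) x ∧ t = opair (opair u v) w)
  | _, x, _ => sep (prod (prod (tc x) (tc x)) (tc x))
      (fun t => ∃ u v w, E (opair (opair v w) u) x ∧ t = opair (opair u v) w)

theorem gvq2 {x y t : M} : E t (sep (prod x y) (fun t => ∃ u v, E u v ∧ t = opair u v)) ↔
    ∃ u v, E u x ∧ E v y ∧ E u v ∧ t = opair u v := by
  rw [mem_sep]
  constructor
  · rintro ⟨h1, u, v, h2, rfl⟩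
    rw [mem_prod] at h1
    exact ⟨u, v, h1.1, h1.2, h2, rfl⟩
  · rintro ⟨u, v, h1, h2, h3, rfl⟩
    exact ⟨mem_prod.2 ⟨h1, h2⟩, u, v, h3, rfl⟩

theorem gvq6 {x t : M} : E t (sep (tc x) (fun t => ∃ v, E (opair t v) x)) ↔
    ∃ v, E (opair t v) x := by
  rw [mem_sep]
  exact ⟨fun h => h.2, fun h => ⟨(gvq_tc h.choose_spec).1, h⟩⟩

theorem gvq7 {x t : M} : E t (sep (prod (tc x) (tc x))
    (fun t => ∃ u v, E (opair v u) x ∧ t = opair u v)) ↔
    ∃ u v, E (opair v u) x ∧ t = opair u v := by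
  rw [mem_sep]
  refine ⟨fun h => h.2, fun h => ⟨?_, h⟩⟩
  obtain ⟨u, v, h1, rfl⟩ := h
  exact mem_prod.2 ⟨(gvq_tc h1).2, (gvq_tc h1).1⟩

theorem gvq8 {x t : M} : E t (sep (prod (prod (tc x) (tc x)) (tc x))
    (fun t => ∃ u v w, E (opair (opair u w) v) x ∧ t = opair (opair u v) w)) ↔
    ∃ u v w, E (opair (opair u w) v) x ∧ t = opair (opair u v) w := by
  rw [mem_sep]
  refine ⟨fun h => h.2, fun h => ⟨?_, h⟩⟩
  obtain ⟨u, v, w, h1, rfl⟩ := h
  have h2 := gvq_tc3 h1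
  exact mem_prod.2 ⟨mem_prod.2 ⟨h2.1, h2.2.2⟩, h2.2.1⟩

theorem gvq9 {x t : M} : E t (sep (prod (prod (tc x) (tc x)) (tc x))
    (fun t => ∃ u v w, E (opair (opair v w) u) x ∧ t = opair (opair u v) w)) ↔
    ∃ u v w, E (opair (opair v w) u) x ∧ t = opair (opair u v) w := by
  rw [mem_sep]
  refine ⟨fun h => h.2, fun h => ⟨?_, h⟩⟩
  obtain ⟨u, v, w, h1, rfl⟩ := h
  have h2 := gvq_tc3 h1
  exact mem_prod.2 ⟨mem_prod.2 ⟨h2.2.2, h2.1⟩, h2.2.1⟩

theorem gvq_ext {z g : M} {P : M → Prop} (h : ∀ t, E t g ↔ P t) : (∀ t, E t z ↔ P t) ↔ z = g := by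
  constructor
  · intro h1
    exact ext fun t => by rw [h1, h]
  · rintro rfl
    exact h

/-- the values of the Goedel operations -/
theorem gvq_iff : ∀ (i : ℕ) (z x y : M), GV i z x y ↔ z = gop i x y
  | 0, z, x, y => gvq_ext fun t => mem_upair
  | 1, z, x, y => by
    constructor
    · rintro ⟨h1, h2⟩
      refine ext fun t => ⟨fun ht => ?_, fun ht => ?_⟩
      · obtain ⟨u, v, hu, hv, h⟩ := h1 t ht
        exact mem_prod'.2 ⟨u, v, hu, hv, isOP_iff.1 h⟩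
      · obtain ⟨u, v, hu, hv, rfl⟩ := mem_prod'.1 ht
        obtain ⟨t, ht, h⟩ := h2 u v hu hv
        rw [isOP_iff] at h
        rwa [← h]
    · rintro rfl
      refine ⟨fun t ht => ?_, fun u v hu hv => ⟨_, mem_prod.2 ⟨hu, hv⟩, isOP_iff.2 rfl⟩⟩
      obtain ⟨u, v, hu, hv, rfl⟩ := mem_prod'.1 ht
      exact ⟨u, v, hu, hv, isOP_iff.2 rfl⟩
  | 2, z, x, y => by
    constructor
    · rintro ⟨h1, h2⟩
      refine ext fun t => ⟨fun ht => ?_, fun ht => ?_⟩
      · obtain ⟨u, v, hu, hv, huv, h⟩ := h1 t ht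
        exact gvq2.2 ⟨u, v, hu, hv, huv, isOP_iff.1 h⟩
      · obtain ⟨u, v, hu, hv, huv, rfl⟩ := gvq2.1 ht
        obtain ⟨t, ht, h⟩ := h2 u v hu hv huv
        rw [isOP_iff] at h
        rwa [← h]
    · rintro rfl
      refine ⟨fun t ht => ?_, fun u v hu hv huv => ⟨opair u v, gvq2.2 ⟨u, v, hu, hv, huv, rfl⟩,
        isOP_iff.2 rfl⟩⟩
      obtain ⟨u, v, hu, hv, huv, rfl⟩ := gvq2.1 ht
      exact ⟨u, v, hu, hv, huv, isOP_iff.2 rfl⟩
  | 3, z, x, y => gvq_ext fun t => mem_diff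
  | 4, z, x, y => gvq_ext fun t => mem_inter
  | 5, z, x, y => gvq_ext fun t => mem_sUn
  | 6, z, x, y => by
    refine gvq_ext fun t => gvq6.trans ?_
    constructor
    · rintro ⟨v, h⟩
      exact ⟨_, v, h, isOP_iff.2 rfl⟩
    · rintro ⟨s, v, h1, h2⟩
      rw [isOP_iff] at h2
      exact ⟨v, by rwa [← h2]⟩
  | 7, z, x, y => by
    constructor
    · rintro ⟨h1, h2⟩
      refine ext fun t => ⟨fun ht => ?_, fun ht => ?_⟩
      · obtain ⟨s, u, v, hs, h3, h4⟩ := h1 t ht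
        rw [isOP_iff] at h3 h4
        subst h3
        exact gvq7.2 ⟨u, v, hs, h4⟩
      · obtain ⟨u, v, h3, rfl⟩ := gvq7.1 ht
        obtain ⟨t, ht, h⟩ := h2 _ u v h3 (isOP_iff.2 rfl)
        rw [isOP_iff] at h
        rwa [← h]
    · rintro rfl
      refine ⟨fun t ht => ?_, fun s u v hs h3 => ?_⟩
      · obtain ⟨u, v, h3, rfl⟩ := gvq7.1 ht
        exact ⟨_, u, v, h3, isOP_iff.2 rfl, isOP_iff.2 rfl⟩
      · rw [isOP_iff] at h3
        subst h3
        exact ⟨opair u v, gvq7.2 ⟨u, v, hs, rfl⟩, isOP_iff.2 rfl⟩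
  | 8, z, x, y => by
    constructor
    · rintro ⟨h1, h2⟩
      refine ext fun t => ⟨fun ht => ?_, fun ht => ?_⟩
      · obtain ⟨s, u, v, w, hs, h3, h4⟩ := h1 t ht
        rw [gvq_triple] at h3 h4
        subst h3
        exact gvq8.2 ⟨u, v, w, hs, h4⟩
      · obtain ⟨u, v, w, h3, rfl⟩ := gvq8.1 ht
        obtain ⟨t, ht, h⟩ := h2 _ u v w h3 (gvq_triple.2 rfl)
        rw [gvq_triple] at h
        rwa [← h]
    · rintro rfl
      refine ⟨fun t ht => ?_, fun s u v w hs h3 => ?_⟩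
      · obtain ⟨u, v, w, h3, rfl⟩ := gvq8.1 ht
        exact ⟨_, u, v, w, h3, gvq_triple.2 rfl, gvq_triple.2 rfl⟩
      · rw [gvq_triple] at h3
        subst h3
        exact ⟨opair (opair u v) w, gvq8.2 ⟨u, v, w, hs, rfl⟩, gvq_triple.2 rfl⟩
  | n + 9, z, x, y => by
    constructor
    · rintro ⟨h1, h2⟩
      refine ext fun t => ⟨fun ht => ?_, fun ht => ?_⟩
      · obtain ⟨s, u, v, w, hs, h3, h4⟩ := h1 t ht
        rw [gvq_triple] at h3 h4
        subst h3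
        exact gvq9.2 ⟨u, v, w, hs, h4⟩
      · obtain ⟨u, v, w, h3, rfl⟩ := gvq9.1 ht
        obtain ⟨t, ht, h⟩ := h2 _ u v w h3 (gvq_triple.2 rfl)
        rw [gvq_triple] at h
        rwa [← h]
    · rintro rfl
      refine ⟨fun t ht => ?_, fun s u v w hs h3 => ?_⟩
      · obtain ⟨u, v, w, h3, rfl⟩ := gvq9.1 ht
        exact ⟨_, u, v, w, h3, gvq_triple.2 rfl, gvq_triple.2 rfl⟩
      · rw [gvq_triple] at h3
        subst h3
        exact ⟨opair (opair u v) w, gvq9.2 ⟨u, v, w, hs, rfl⟩, gvq_triple.2 rfl⟩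

theorem gvq_value (z x y : M) : IsGoedelValue z x y ↔ ∃ i : Fin 10, GV i z x y := by
  have e1 : (∀ t, E t z ↔ ∃ u v, E u x ∧ E v y ∧ IsOP t u v) ↔ z = gop 1 x y :=
    gvq_ext fun t => by
      refine mem_prod'.trans ?_
      simp only [isOP_iff]
  have e2 : (∀ t, E t z ↔ ∃ u v, E u x ∧ E v y ∧ E u v ∧ IsOP t u v) ↔ z = gop 2 x y :=
    gvq_ext fun t => by
      refine gvq2.trans ?_
      simp only [isOP_iff]
  have e6 : (∀ t, E t z ↔ ∃ v, PairIn t v x) ↔ z = gop 6 x y :=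
    gvq_ext fun t => by
      refine gvq6.trans ?_
      simp only [pairIn_iff]
  have e7 : (∀ t, E t z ↔ ∃ u v, IsOP t u v ∧ PairIn v u x) ↔ z = gop 7 x y :=
    gvq_ext fun t => by
      refine gvq7.trans ?_
      simp only [pairIn_iff, isOP_iff]
      exact exists_congr fun u => exists_congr fun v => and_comm
  have e8 : (∀ t, E t z ↔ ∃ u v w, IsTriple t u v w ∧ ∃ s, IsTriple s u w v ∧ E s x) ↔
      z = gop 8 x y :=
    gvq_ext fun t => by
      refine gvq8.trans ?_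
      simp only [gvq_triple]
      refine exists_congr fun u => exists_congr fun v => exists_congr fun w => ?_
      constructor
      · rintro ⟨h1, h2⟩
        exact ⟨h2, _, rfl, h1⟩
      · rintro ⟨h2, s, rfl, h1⟩
        exact ⟨h1, h2⟩
  have e9 : (∀ t, E t z ↔ ∃ u v w, IsTriple t u v w ∧ ∃ s, IsTriple s v w u ∧ E s x) ↔
      z = gop 9 x y :=
    gvq_ext fun t => by
      refine gvq9.trans ?_
      simp only [gvq_triple]
      refine exists_congr fun u => exists_congr fun v => exists_congr fun w => ?_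
      constructor
      · rintro ⟨h1, h2⟩
        exact ⟨h2, _, rfl, h1⟩
      · rintro ⟨h2, s, rfl, h1⟩
        exact ⟨h1, h2⟩
  have e0 : (∀ t, E t z ↔ t = x ∨ t = y) ↔ z = gop 0 x y := gvq_iff 0 z x y
  have e3 : (∀ t, E t z ↔ E t x ∧ ¬ E t y) ↔ z = gop 3 x y := gvq_iff 3 z x y
  have e4 : (∀ t, E t z ↔ E t x ∧ E t y) ↔ z = gop 4 x y := gvq_iff 4 z x y
  have e5 : (∀ t, E t z ↔ ∃ u, E u x ∧ E t u) ↔ z = gop 5 x y := gvq_iff 5 z x y
  unfold IsGoedelValue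
  rw [e0, e1, e2, e3, e4, e5, e6, e7, e8, e9]
  constructor
  · rintro (h | h | h | h | h | h | h | h | h | h)
    · exact ⟨0, (gvq_iff 0 z x y).2 h⟩
    · exact ⟨1, (gvq_iff 1 z x y).2 h⟩
    · exact ⟨2, (gvq_iff 2 z x y).2 h⟩
    · exact ⟨3, (gvq_iff 3 z x y).2 h⟩
    · exact ⟨4, (gvq_iff 4 z x y).2 h⟩
    · exact ⟨5, (gvq_iff 5 z x y).2 h⟩
    · exact ⟨6, (gvq_iff 6 z x y).2 h⟩
    · exact ⟨7, (gvq_iff 7 z x y).2 h⟩
    · exact ⟨8, (gvq_iff 8 z x y).2 h⟩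
    · exact ⟨9, (gvq_iff 9 z x y).2 h⟩
  · rintro ⟨i, hi⟩
    rw [gvq_iff] at hi
    fin_cases i
    · exact Or.inl hi
    · exact Or.inr (Or.inl hi)
    · exact Or.inr (Or.inr (Or.inl hi))
    · exact Or.inr (Or.inr (Or.inr (Or.inl hi)))
    · exact Or.inr (Or.inr (Or.inr (Or.inr (Or.inl hi))))
    · exact Or.inr (Or.inr (Or.inr (Or.inr (Or.inr (Or.inl hi)))))
    · exact Or.inr (Or.inr (Or.inr (Or.inr (Or.inr (Or.inr (Or.inl hi))))))
    · exact Or.inr (Or.inr (Or.inr (Or.inr (Or.inr (Or.inr (Or.inr (Or.inl hi)))))))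
    · exact Or.inr (Or.inr (Or.inr (Or.inr (Or.inr (Or.inr (Or.inr (Or.inr (Or.inl hi))))))))
    · exact Or.inr (Or.inr (Or.inr (Or.inr (Or.inr (Or.inr (Or.inr (Or.inr (Or.inr hi))))))))

end

theorem sep_gvq : GVQStmt := fun M _ _ =>
  ⟨gvq_value, fun i x y => ⟨gop i x y, (gvq_iff i _ x y).2 rfl, fun z' h => (gvq_iff i z' x y).1 h⟩⟩

end SW.SEP
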