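import Pool.Agent.H63.SEP.Stmts3

/-!
Project SEP, module OMQ: the set of natural numbers and the ordinals.
-/

set_option linter.unusedVariables false
set_option synthInstance.maxSize 100000

namespace SW.SEP

open SW

section
variable {M : Type} [SetStr M] [ZF M]

theorem omq_suc {s n : M} (h : ∀ t, E t s ↔ E t n ∨ t = n) : s = suc n :=
  ext fun t => by rw [h, mem_suc]

theorem omq_ind {z : M} : IsInductive z ↔ Ind z := by
  constructor
  · rintro ⟨⟨e, he, h1⟩, h2⟩
    refine ⟨?_, fun y hy => ?_⟩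
    · rw [eq_emp he] at h1; exact h1
    · obtain ⟨s, hs, h3⟩ := h2 y hy
      rw [omq_suc hs] at h3
      exact h3
  · rintro ⟨h1, h2⟩
    exact ⟨⟨emp, fun t => not_mem_emp t, h1⟩, fun y hy => ⟨suc y, fun t => mem_suc, h2 y hy⟩⟩

omit [ZF M] in
theorem omq_ord {d : M} : IsOrdinal d ↔ Ord d := Iff.rfl

theorem omq_omega {o : M} : IsOmega o ↔ o = om := by
  constructor
  · rintro ⟨h1, h2⟩
    apply Sub.antisymm
    · apply h2
      rw [omq_ind]
      exact ⟨emp_mem_om, fun y hy => suc_mem_om hy⟩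
    · intro n hn
      exact mem_om.1 hn o (omq_ind.1 h1)
  · rintro rfl
    refine ⟨omq_ind.2 ⟨emp_mem_om, fun y hy => suc_mem_om hy⟩, fun z hz n hn => ?_⟩
    exact mem_om.1 hn z (omq_ind.1 hz)

theorem omq_om0 {o : M} : IsOm0 o ↔ o = om := by
  constructor
  · rintro ⟨ho, ⟨e, he, he'⟩, h2, h3⟩
    have ho' : Ord o := ho
    have h1 : Ind o := by
      refine ⟨?_, fun y hy => ?_⟩
      · rw [eq_emp he'] at he; exact he
      · obtain ⟨s, hs, h3⟩ := h2 y hy
        rw [omq_suc h3] at hs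
        exact hs
    have h4 : Sub om o := fun n hn => mem_om.1 hn o h1
    rcases (Ord_om.sub_iff ho').1 h4 with h5 | h5
    · exfalso
      rcases h3 om h5 with h6 | ⟨m, hm⟩
      · exact h6 emp emp_mem_om
      · have h7 : E m (om : M) := (hm m).2 (Or.inr rfl)
        have h8 : E (suc m) (om : M) := suc_mem_om h7
        rw [← omq_suc hm] at h8
        exact not_mem_self _ h8
    · exact h5.symm
  · rintro rfl
    refine ⟨Ord_om, ⟨emp, emp_mem_om, fun t => not_mem_emp t⟩, fun n hn =>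
      ⟨suc n, suc_mem_om hn, fun t => mem_suc⟩, fun n hn => ?_⟩
    rcases om_cases hn with rfl | ⟨k, _, rfl⟩
    · exact Or.inl fun t => not_mem_emp t
    · exact Or.inr ⟨k, fun t => mem_suc⟩

end

theorem sep_omq : OMQStmt := fun M _ _ o => ⟨omq_om0, omq_omega, fun d => omq_ord⟩

end SW.SEP
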