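import Pool.Agent.H65.SEP.GVQ
import Pool.Agent.H65.SEP.OMQ

/-!
Project SEP: the constructible hierarchy as a class function.
-/

set_option linter.unusedVariables false
set_option synthInstance.maxSize 100000

namespace SW.SEP

open SW

section
variable {M : Type} [SetStr M] [ZF M]

theorem gop_df : ∀ i : ℕ, Fn2 (fun x y : M => gop i x y)
  | 0 => by simp only [gop]; infer_instance
  | 1 => by simp only [gop]; infer_instance
  | 2 => by simp only [gop]; infer_instance
  | 3 => by simp only [gop]; infer_instance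
  | 4 => by simp only [gop]; infer_instance
  | 5 => by simp only [gop]; infer_instance
  | 6 => by simp only [gop]; infer_instance
  | 7 => by simp only [gop]; infer_instance
  | 8 => by simp only [gop]; infer_instance
  | _ + 9 => by simp only [gop]; infer_instance

instance {n : ℕ} {i : ℕ} {t s : (Fin n → M) → M} [ht : DfT t] [hs : DfT s] :
    DfT (fun v => gop i (t v) (s v)) := (gop_df i).comp2 ht hs

/-- `c` with the values of the first `k` operations at members of `c` -/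
noncomputable def gun : ℕ → M → M
  | 0, c => c
  | k + 1, c => bun (gun k c) (img (prod c c) (fun z => gop k (p1 z) (p2 z)))

theorem gun_df : ∀ k : ℕ, Fn1 (fun c : M => gun k c)
  | 0 => by simp only [gun]; infer_instance
  | k + 1 => by
    have h := gun_df k
    simp only [gun]
    infer_instance

theorem mem_gun (c z : M) : ∀ k : ℕ, E z (gun k c) ↔ E z c ∨ ∃ i, i < k ∧ ∃ a b, E a c ∧ E b c ∧
    z = gop i a b
  | 0 => by
    simp only [gun]
    constructor
    · exact Or.inl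
    · rintro (h | ⟨i, hi, _⟩)
      · exact h
      · omega
  | k + 1 => by
    simp only [gun, mem_bun]
    rw [mem_gun c z k, mem_img]
    constructor
    · rintro ((h | ⟨i, hi, a, b, h1, h2, h3⟩) | ⟨w, hw, h⟩)
      · exact Or.inl h
      · exact Or.inr ⟨i, by omega, a, b, h1, h2, h3⟩
      · obtain ⟨a, b, h1, h2, rfl⟩ := mem_prod'.1 hw
        rw [p1_opair, p2_opair] at h
        exact Or.inr ⟨k, by omega, a, b, h1, h2, h⟩
    · rintro (h | ⟨i, hi, a, b, h1, h2, h3⟩)
      · exact Or.inl (Or.inl h)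
      · rcases Nat.lt_succ_iff_lt_or_eq.1 hi with h4 | rfl
        · exact Or.inl (Or.inr ⟨i, h4, a, b, h1, h2, h3⟩)
        · exact Or.inr ⟨opair a b, mem_prod.2 ⟨h1, h2⟩, by rw [p1_opair, p2_opair]; exact h3⟩

/-- one step -/
noncomputable def gstep (c : M) : M := gun 10 c

instance {n : ℕ} {t : (Fin n → M) → M} [ht : DfT t] : DfT (fun v => gstep (t v)) :=
  (gun_df (M := M) 10).comp1 ht

theorem mem_gstep {c z : M} : E z (gstep c) ↔ E z c ∨ ∃ a b, E a c ∧ E b c ∧
    ∃ i : Fin 10, z = gop i a b := by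
  unfold gstep
  rw [mem_gun]
  constructor
  · rintro (h | ⟨i, hi, a, b, h1, h2, h3⟩)
    · exact Or.inl h
    · exact Or.inr ⟨a, b, h1, h2, ⟨i, hi⟩, h3⟩
  · rintro (h | ⟨a, b, h1, h2, i, h3⟩)
    · exact Or.inl h
    · exact Or.inr ⟨i, i.2, a, b, h1, h2, h3⟩

theorem gstep_iff {c d : M} : GStep c d ↔ d = gstep c := by
  constructor
  · rintro ⟨h1, h2, h3⟩
    refine ext fun z => ?_
    rw [mem_gstep]
    constructor
    · intro hz
      rcases h3 z hz with h | ⟨a, b, ha, hb, i, h⟩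
      · exact Or.inl h
      · exact Or.inr ⟨a, b, ha, hb, i, (gvq_iff i z a b).1 h⟩
    · rintro (h | ⟨a, b, ha, hb, i, h⟩)
      · exact h1 z h
      · obtain ⟨z', hz', h4⟩ := h2 i a b ha hb
        rw [gvq_iff] at h4
        rw [h, ← h4]
        exact hz'
  · rintro rfl
    refine ⟨fun t ht => mem_gstep.2 (Or.inl ht), fun i a b ha hb =>
      ⟨gop i a b, mem_gstep.2 (Or.inr ⟨a, b, ha, hb, i, rfl⟩), (gvq_iff i _ a b).2 rfl⟩,
      fun z hz => ?_⟩
    rcases mem_gstep.1 hz with h | ⟨a, b, ha, hb, i, h⟩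
    · exact Or.inl h
    · exact Or.inr ⟨a, b, ha, hb, i, (gvq_iff i z a b).2 h⟩

/-- the stages of the closure of `x ∪ {x}` -/
noncomputable def st (x n : M) : M := orec (suc x) (fun y => gstep y) n

instance {n : ℕ} {t s : (Fin n → M) → M} [ht : DfT t] [hs : DfT s] :
    DfT (fun v => st (t v) (s v)) := by
  have h : Fn2 (fun x n : M => st x n) := by unfold st; infer_instance
  exact h.comp2 ht hs

theorem st_zero (x : M) : st x emp = suc x := orec_zero inferInstance

theorem st_suc (x : M) {n : M} (hn : E n om) : st x (suc n) = gstep (st x n) :=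
  orec_suc inferInstance hn

/-- the closure of `x ∪ {x}` under the Goedel operations -/
noncomputable def clo (x : M) : M := sUn (img om (fun n => st x n))

instance {n : ℕ} {t : (Fin n → M) → M} [ht : DfT t] : DfT (fun v => clo (t v)) := by
  have h : Fn1 (fun x : M => clo x) := by unfold clo; infer_instance
  exact h.comp1 ht

theorem mem_clo {x z : M} : E z (clo x) ↔ ∃ n, E n om ∧ E z (st x n) := by
  unfold clo
  rw [mem_sUn]
  constructor
  · rintro ⟨y, hy, hz⟩
    rw [mem_img] at hy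
    obtain ⟨n, hn, rfl⟩ := hy
    exact ⟨n, hn, hz⟩
  · rintro ⟨n, hn, hz⟩
    exact ⟨_, by rw [mem_img]; exact ⟨n, hn, rfl⟩, hz⟩

/-- the definable subsets of `x` -/
noncomputable def dfn (x : M) : M := sep (clo x) (fun t => Sub t x)

instance {n : ℕ} {t : (Fin n → M) → M} [ht : DfT t] : DfT (fun v => dfn (t v)) := by
  have h : Fn1 (fun x : M => dfn x) := by unfold dfn; infer_instance
  exact h.comp1 ht

theorem mem_dfn {x t : M} : E t (dfn x) ↔ E t (clo x) ∧ Sub t x := by
  unfold dfn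
  rw [mem_sep]

/-- the constructible hierarchy -/
noncomputable def Lc (b : M) : M := mrec (fun _ h => sUn (img h (fun z => dfn (p2 z)))) b

instance {n : ℕ} {t : (Fin n → M) → M} [ht : DfT t] : DfT (fun v => Lc (t v)) := by
  have h : Fn1 (fun x : M => Lc x) := by unfold Lc; infer_instance
  exact h.comp1 ht

theorem mem_Lc {b t : M} : E t (Lc b) ↔ ∃ c, E c b ∧ E t (dfn (Lc c)) := by
  have h1 : Fn1 (fun x : M => Lc x) := inferInstance
  have h2 : Fn2 (fun _ h : M => sUn (img h (fun z => dfn (p2 z)))) := inferInstance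
  have e : Lc b = sUn (img (gr b Lc) (fun z => dfn (p2 z))) := mrec_eq h2 b
  rw [e, mem_sUn]
  constructor
  · rintro ⟨y, hy, hz⟩
    rw [mem_img] at hy
    obtain ⟨w, hw, rfl⟩ := hy
    rw [mem_gr' h1] at hw
    obtain ⟨c, hc, rfl⟩ := hw
    rw [p2_opair] at hz
    exact ⟨c, hc, hz⟩
  · rintro ⟨c, hc, hz⟩
    refine ⟨dfn (Lc c), ?_, hz⟩
    rw [mem_img]
    exact ⟨opair c (Lc c), (mem_gr' h1).2 ⟨c, hc, rfl⟩, by rw [p2_opair]⟩

theorem tripleIn_iff {a b c R : M} : TripleIn a b c R ↔ E (opair (opair a b) c) R := by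
  unfold TripleIn
  simp only [isOP_iff, pairIn_iff]
  constructor
  · rintro ⟨y, rfl, h⟩
    exact h
  · intro h
    exact ⟨_, rfl, h⟩

/-! ### the stages increase -/

theorem st_mono_suc (x : M) {n : M} (hn : E n om) : Sub (st x n) (st x (suc n)) := by
  intro z hz
  rw [st_suc x hn, mem_gstep]
  exact Or.inl hz

theorem st_mono (x : M) {m : M} (hm : E m om) : ∀ n, E n om → (E m n ∨ m = n) →
    Sub (st x m) (st x n) := by
  refine om_ind (C := fun n => (E m n ∨ m = n) → Sub (st x m) (st x n)) inferInstance ?_ ?_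
  · rintro (h | rfl)
    · exact absurd h (not_mem_emp m)
    · exact Sub.refl _
  · intro n hn ih h
    rcases h with h | rfl
    · rw [mem_suc] at h
      exact (ih h).trans (st_mono_suc x hn)
    · exact Sub.refl _

theorem clo_sub (x : M) : Sub (suc x) (clo x) := fun z hz =>
  mem_clo.2 ⟨emp, emp_mem_om, by rw [st_zero]; exact hz⟩

theorem clo_closed (x : M) {a b : M} (i : Fin 10) (ha : E a (clo x)) (hb : E b (clo x)) :
    E (gop i a b) (clo x) := by
  obtain ⟨m, hm, ha⟩ := mem_clo.1 ha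
  obtain ⟨n, hn, hb⟩ := mem_clo.1 hb
  have key : ∃ k, E k om ∧ E a (st x k) ∧ E b (st x k) := by
    rcases (Ord_nat hm).tri (Ord_nat hn) with h | h | h
    · exact ⟨n, hn, st_mono x hm n hn (Or.inl h) a ha, hb⟩
    · exact ⟨n, hn, st_mono x hm n hn (Or.inr h) a ha, hb⟩
    · exact ⟨m, hm, ha, st_mono x hn m hm (Or.inl h) b hb⟩
  obtain ⟨k, hk, ha, hb⟩ := key
  refine mem_clo.2 ⟨suc k, suc_mem_om hk, ?_⟩
  rw [st_suc x hk, mem_gstep]
  exact Or.inr ⟨a, b, ha, hb, i, rfl⟩

theorem clo_least (x : M) {d : M} (h1 : Sub (suc x) d)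
    (h2 : ∀ (i : Fin 10) a b, E a d → E b d → E (gop i a b) d) : Sub (clo x) d := by
  have key : ∀ n, E n om → Sub (st x n) d := by
    refine om_ind (C := fun n => Sub (st x n) d) inferInstance ?_ ?_
    · rw [st_zero]
      exact h1
    · intro n hn ih z hz
      rw [st_suc x hn, mem_gstep] at hz
      rcases hz with hz | ⟨a, b, ha, hb, i, rfl⟩
      · exact ih z hz
      · exact h2 i a b (ih a ha) (ih b hb)
  intro z hz
  obtain ⟨n, hn, hz⟩ := mem_clo.1 hz
  exact key n hn z hz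

theorem closed_iff {c : M} : IsGoedelClosed c ↔
    ∀ (i : Fin 10) a b, E a c → E b c → E (gop i a b) c := by
  constructor
  · intro h i a b ha hb
    refine h a b _ ha hb ?_
    rw [gvq_value]
    exact ⟨i, (gvq_iff i _ a b).2 rfl⟩
  · intro h a b z ha hb hz
    rw [gvq_value] at hz
    obtain ⟨i, hi⟩ := hz
    rw [gvq_iff] at hi
    rw [hi]
    exact h i a b ha hb

theorem closure_iff {x c : M} : IsGoedelClosure (suc x) c ↔ c = clo x := by
  constructor
  · rintro ⟨h1, h2, h3⟩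
    apply Sub.antisymm
    · exact h3 (clo x) (clo_sub x) (closed_iff.2 fun i a b => clo_closed x i)
    · exact clo_least x h1 (closed_iff.1 h2)
  · rintro rfl
    exact ⟨clo_sub x, closed_iff.2 fun i a b => clo_closed x i, fun d h1 h2 =>
      clo_least x h1 (closed_iff.1 h2)⟩

theorem defpow_iff {a d : M} : IsDefinablePower a d ↔ d = dfn a := by
  constructor
  · rintro ⟨s, c, h1, h2, h3⟩
    have e : s = suc a := omq_suc h1
    subst e
    rw [closure_iff] at h2
    subst h2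
    refine ext fun y => ?_
    rw [h3, mem_dfn]
    exact Iff.rfl
  · rintro rfl
    exact ⟨suc a, clo a, fun t => mem_suc, closure_iff.2 rfl, fun y => mem_dfn⟩

/-! ### the values of hierarchies -/

theorem hw_vals {d f g o : M} (h : HW d f g o) : o = om ∧ Ord d ∧
    (∀ b y, (E b d ∨ b = d) → (E (opair b y) f ↔ y = Lc b)) ∧
    ∀ c n C, E c d → E n om → (E (opair (opair c n) C) g ↔ C = st (Lc c) n) := by
  obtain ⟨h1, h2, hf, hg, h3, h4, h5⟩ := h
  have ho : o = om := omq_om0.1 h2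
  subst ho
  have hd : Ord d := h1
  have hF : ∀ b y, (E b d ∨ b = d) → (E (opair b y) f ↔ y = Lc b) := by
    intro b
    refine mem_induction (C := fun b => ∀ y, (E b d ∨ b = d) → (E (opair b y) f ↔ y = Lc b))
      inferInstance ?_ b
    intro b ih y hb
    have hc : ∀ c, E c b → E c d := by
      intro c hc
      rcases hb with hb | rfl
      · exact hd.1 b hb c hc
      · exact hc
    have hgc : ∀ c, E c b → ∀ n, E n om → ∀ C, E (opair (opair c n) C) g → C = st (Lc c) n := by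
      intro c hcb
      have hcd := hc c hcb
      refine om_ind (C := fun n => ∀ C, E (opair (opair c n) C) g → C = st (Lc c) n)
        inferInstance ?_ ?_
      · intro C hC
        rw [st_zero]
        have h6 := h3 c emp C (Lc c) hcd (fun t => not_mem_emp t) (tripleIn_iff.2 hC)
          (pairIn_iff.2 ((ih c hcb (Lc c) (Or.inl hcd)).2 rfl))
        exact ext fun t => by rw [h6, mem_suc]
      · intro n hn ihn C hC
        obtain ⟨C0, hC0⟩ := hg.1 c n hcd hn
        have h6 := h4 c n (suc n) C0 C hcd hn (fun t => mem_suc) hC0 (tripleIn_iff.2 hC)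
        rw [gstep_iff] at h6
        rw [h6, st_suc _ hn, ihn C0 (tripleIn_iff.1 hC0)]
    have hgc' : ∀ c, E c b → ∀ n, E n om → E (opair (opair c n) (st (Lc c) n)) g := by
      intro c hcb n hn
      obtain ⟨C0, hC0⟩ := hg.1 c n (hc c hcb) hn
      rw [tripleIn_iff] at hC0
      rw [← hgc c hcb n hn C0 hC0]
      exact hC0
    have key : ∀ y, E (opair b y) f → y = Lc b := by
      intro y hy
      have h6 := h5 b y hb (pairIn_iff.2 hy)
      refine ext fun t => ?_
      rw [h6, mem_Lc]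
      constructor
      · rintro ⟨c, n, C, u, h7, h8, h9, h10, h11, h12⟩
        rw [tripleIn_iff] at h9
        rw [pairIn_iff] at h10
        have e1 := hgc c h7 n h8 C h9
        have e2 := (ih c h7 u (Or.inl (hc c h7))).1 h10
        subst e1
        subst e2
        exact ⟨c, h7, mem_dfn.2 ⟨mem_clo.2 ⟨n, h8, h11⟩, h12⟩⟩
      · rintro ⟨c, h7, h8⟩
        rw [mem_dfn, mem_clo] at h8
        obtain ⟨⟨n, hn, h9⟩, h10⟩ := h8
        exact ⟨c, n, st (Lc c) n, Lc c, h7, hn, tripleIn_iff.2 (hgc' c h7 n hn),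
          pairIn_iff.2 ((ih c h7 _ (Or.inl (hc c h7))).2 rfl), h9, h10⟩
    refine ⟨key y, ?_⟩
    rintro rfl
    obtain ⟨y0, hy0⟩ := hf.1 b hb
    rw [pairIn_iff] at hy0
    rw [← key y0 hy0]
    exact hy0
  refine ⟨rfl, hd, hF, ?_⟩
  intro c n C hcd hn
  have hgc : ∀ n, E n om → ∀ C, E (opair (opair c n) C) g → C = st (Lc c) n := by
    refine om_ind (C := fun n => ∀ C, E (opair (opair c n) C) g → C = st (Lc c) n)
      inferInstance ?_ ?_
    · intro C hC
      rw [st_zero]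
      have h6 := h3 c emp C (Lc c) hcd (fun t => not_mem_emp t) (tripleIn_iff.2 hC)
        (pairIn_iff.2 ((hF c (Lc c) (Or.inl hcd)).2 rfl))
      exact ext fun t => by rw [h6, mem_suc]
    · intro n hn ihn C hC
      obtain ⟨C0, hC0⟩ := hg.1 c n hcd hn
      have h6 := h4 c n (suc n) C0 C hcd hn (fun t => mem_suc) hC0 (tripleIn_iff.2 hC)
      rw [gstep_iff] at h6
      rw [h6, st_suc _ hn, ihn C0 (tripleIn_iff.1 hC0)]
  refine ⟨hgc n hn C, ?_⟩
  rintro rfl
  obtain ⟨C0, hC0⟩ := hg.1 c n hcd hn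
  rw [tripleIn_iff] at hC0
  rw [← hgc n hn C0 hC0]
  exact hC0

/-- the graph of the hierarchy -/
noncomputable def Lf (d : M) : M := gr (suc d) (fun x => Lc x)

/-- the graph of the stages -/
noncomputable def Lg (d : M) : M := gr (prod d om) (fun z => st (Lc (p1 z)) (p2 z))

theorem mem_Lf {d b y : M} : E (opair b y) (Lf d) ↔ (E b d ∨ b = d) ∧ y = Lc b := by
  unfold Lf
  rw [opair_mem_gr inferInstance, mem_suc]

theorem mem_Lg {d c n C : M} : E (opair (opair c n) C) (Lg d) ↔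
    (E c d ∧ E n om) ∧ C = st (Lc c) n := by
  unfold Lg
  rw [opair_mem_gr inferInstance, mem_prod, p1_opair, p2_opair]

theorem hw_ex {d : M} (hd : Ord d) : HW d (Lf d) (Lg d) om := by
  refine ⟨hd, omq_om0.2 rfl, ⟨fun b hb => ⟨Lc b, pairIn_iff.2 (mem_Lf.2 ⟨hb, rfl⟩)⟩, ?_⟩,
    ⟨fun c n hc hn => ⟨st (Lc c) n, tripleIn_iff.2 (mem_Lg.2 ⟨⟨hc, hn⟩, rfl⟩)⟩, ?_⟩, ?_, ?_, ?_⟩
  · intro b y y' h1 h2
    rw [pairIn_iff, mem_Lf] at h1 h2
    rw [h1.2, h2.2]
  · intro c n C C' h1 h2
    rw [tripleIn_iff, mem_Lg] at h1 h2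
    rw [h1.2, h2.2]
  · intro c n C y hc hn h1 h2 t
    rw [tripleIn_iff, mem_Lg] at h1
    rw [pairIn_iff, mem_Lf] at h2
    rw [h1.2, h2.2, eq_emp hn, st_zero, mem_suc]
  · intro c n s C C' hc hn hs h1 h2
    rw [tripleIn_iff, mem_Lg] at h1 h2
    rw [omq_suc hs] at h2
    rw [gstep_iff, h1.2, h2.2, st_suc _ hn]
  · intro b y hb h1 t
    rw [pairIn_iff, mem_Lf] at h1
    rw [h1.2, mem_Lc]
    have hc : ∀ c, E c b → E c d := by
      intro c hc
      rcases hb with hb | rfl
      · exact hd.1 b hb c hc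
      · exact hc
    constructor
    · rintro ⟨c, h7, h8⟩
      rw [mem_dfn, mem_clo] at h8
      obtain ⟨⟨n, hn, h9⟩, h10⟩ := h8
      exact ⟨c, n, st (Lc c) n, Lc c, h7, hn, tripleIn_iff.2 (mem_Lg.2 ⟨⟨hc c h7, hn⟩, rfl⟩),
        pairIn_iff.2 (mem_Lf.2 ⟨Or.inl (hc c h7), rfl⟩), h9, h10⟩
    · rintro ⟨c, n, C, u, h7, h8, h9, h10, h11, h12⟩
      rw [tripleIn_iff, mem_Lg] at h9
      rw [pairIn_iff, mem_Lf] at h10
      rw [h9.2] at h11
      rw [h10.2] at h12
      exact ⟨c, h7, mem_dfn.2 ⟨mem_clo.2 ⟨n, h8, h11⟩, h12⟩⟩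

theorem hier_vals {h d : M} (hh : IsHierarchy h d) : ∀ b y, (E b d ∨ b = d) →
    E (opair b y) h → y = Lc b := by
  obtain ⟨h1, _, h2⟩ := hh
  have hd : Ord d := h1
  intro b
  refine mem_induction (C := fun b => ∀ y, (E b d ∨ b = d) → E (opair b y) h → y = Lc b)
    inferInstance ?_ b
  intro b ih y hb hy
  have hc : ∀ c, E c b → E c d := by
    intro c hc
    rcases hb with hb | rfl
    · exact hd.1 b hb c hc
    · exact hc
  obtain ⟨y0, h3, h4, h5⟩ := h2 b hb
  rw [h4 y (pairIn_iff.2 hy)]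
  refine ext fun t => ?_
  rw [h5, mem_Lc]
  constructor
  · rintro ⟨c, u, e, h6, h7, h8, h9⟩
    rw [pairIn_iff] at h7
    have e1 := ih c h6 u (Or.inl (hc c h6)) h7
    rw [defpow_iff, e1] at h8
    rw [h8] at h9
    exact ⟨c, h6, h9⟩
  · rintro ⟨c, h6, h9⟩
    obtain ⟨u, h7, _, _⟩ := h2 c (Or.inl (hc c h6))
    have e1 := ih c h6 u (Or.inl (hc c h6)) (pairIn_iff.1 h7)
    exact ⟨c, u, dfn u, h6, h7, defpow_iff.2 rfl, by rw [e1]; exact h9⟩

end

theorem sep_hwe : HWEStmt := fun M _ _ d hd => ⟨Lf d, Lg d, hw_ex hd⟩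

theorem sep_hwu : HWUStmt := by
  intro M _ _ d f g o d' f' g' o' b y y' h h' hb hb' hy hy'
  rw [pairIn_iff] at hy hy'
  rw [((hw_vals h).2.2.1 b y hb).1 hy, ((hw_vals h').2.2.1 b y' hb').1 hy']

theorem sep_hwv : HWVStmt := by
  intro M _ _ hV z
  obtain ⟨f, d, y, h1, h2, h3⟩ := hV z
  rw [pairIn_iff] at h2
  have e := hier_vals h1 d y (Or.inr rfl) h2
  subst e
  exact ⟨d, Lf d, Lg d, om, Lc d, hw_ex h1.1, pairIn_iff.2 (mem_Lf.2 ⟨Or.inr rfl, rfl⟩), h3⟩

end SW.SEP
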